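import Pool.Agent.Helper77.PPO.Goals1
import Pool.Agent.Helper77.PPO.GOO
import Pool.Agent.Helper13.RL.GOO
import Pool.Agent.Helper30.RL.SQR

/-! PPO: O_GOL, the case `χ₀ = 1`: a trivial twisted Selmer group implies good for all the admissible `L`. -/

namespace Pool.Agent.Helper94.PPO

open NumberField Polynomial Module IsDedekindDomain TensorProduct Pool.Agent.Helper51.SigLeo
open Pool.Agent.Helper51.RP Pool.Agent.Helper77.RL Pool.Agent.Helper77.PPO
open Pool.Agent.Helper11.LE (HD Cyc)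
open Pool.Agent.Helper42.RD (TSet)
open Pool.Agent.Helper79.RD (eq_on_sup mem_of_fixed exists_ext map_sup_mem map_mem_normal
  finrank_sup_coprime pow_fix fix_pow res res_coe res_pow)
open Pool.Agent.Helper13.RL

/-- the square `K ⊆ K₁, L ⊆ E ⊔ L` -/
theorem sqr_base {K Ω : Type} [Field K] [Field Ω] [Algebra K Ω] [CharZero K] [Normal K Ω] {p n : ℕ}
    {E L F₁ : IntermediateField K Ω} (hF₁ : F₁ = E ⊔ L)
    [Normal K L] {K₁ : Type} [Field K₁] [Algebra K K₁] [gK₁ : IsGalois K K₁] (j : K₁ →ₐ[K] Ω)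
    (hjE : ∀ x : K₁, j x ∈ E) (hEj : ∀ y ∈ E, ∃ x : K₁, j x = y)
    [Algebra K₁ F₁] [Algebra L F₁]
    (h2 : ∀ x : K₁, ((algebraMap K₁ F₁ x : F₁) : Ω) = j x)
    (h3 : ∀ x : L, ((algebraMap L F₁ x : F₁) : Ω) = x)
    (gL : IsGalois K L) (hc : (finrank K K₁).Coprime p)
    (hd : finrank K L = p ^ n) : Sqr p n K K₁ L F₁ := by
  subst hF₁
  have hst : ∀ σ : Ω ≃ₐ[K] Ω, ∀ x ∈ E ⊔ L, σ x ∈ E ⊔ L := by
    intro σ
    refine map_sup_mem (N := L) σ fun y hy => ?_
    obtain ⟨x, rfl⟩ := hEj y hy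
    let _ : Algebra K₁ Ω := j.toRingHom.toAlgebra
    have ht : IsScalarTower K K₁ Ω := IsScalarTower.of_algebraMap_eq fun c => (j.commutes c).symm
    have h1 := AlgEquiv.restrictNormal_commutes σ K₁ x
    have h2 : σ (j x) = j (σ.restrictNormal K₁ x) := h1.symm
    rw [h2]
    exact hjE _
  have hn : Normal K (E ⊔ L : IntermediateField K Ω) :=
    normal_of_stable fun σ b => ⟨⟨σ b, hst σ b b.2⟩, rfl⟩
  have hg : IsGalois K (E ⊔ L : IntermediateField K Ω) :=
    { to_isSeparable := inferInstance, to_normal := hn }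
  exact
  { galM := gK₁
    galL := gL
    gal := hg
    cop := hc
    deg := hd
    gen := by
      intro g k1 k2
      have e1 : ((g : (E ⊔ L : IntermediateField K Ω) →ₐ[K] (E ⊔ L : IntermediateField K Ω))) =
          AlgHom.id K _ := by
        refine hom_ext_sup ?_ ?_
        · intro x hx
          obtain ⟨y, rfl⟩ := hEj x hx
          have k3 := k1 y
          have k4 : algebraMap K₁ (E ⊔ L : IntermediateField K Ω) y =
              ⟨j y, (le_sup_left : E ≤ E ⊔ L) hx⟩ := Subtype.ext (h2 y)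
          rw [k4] at k3
          exact k3
        · intro x hx
          have k3 := k2 ⟨x, hx⟩
          have k4 : algebraMap L (E ⊔ L : IntermediateField K Ω)
              ⟨x, hx⟩ =
              ⟨x, (le_sup_right : L ≤ E ⊔ L) hx⟩ := Subtype.ext (h3 _)
          rw [k4] at k3
          exact k3
      ext x
      have h5 := AlgHom.congr_fun e1 x
      exact congrArg Subtype.val h5 }

/-- a field `M = K` has only the trivial automorphism -/
theorem bot_aut {K Ω : Type} [Field K] [Field Ω] [Algebra K Ω] {M : IntermediateField K Ω}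
    (hM : M = ⊥) (g : M ≃ₐ[K] M) : g = 1 := by
  ext x
  have hx : (x : Ω) ∈ (⊥ : IntermediateField K Ω) := by rw [← hM]; exact x.2
  obtain ⟨c, hc⟩ := IntermediateField.mem_bot.1 hx
  have e1 : x = algebraMap K M c := Subtype.ext hc.symm
  rw [e1, AlgEquiv.commutes]
  rfl

theorem o_gol (h1 : O_TRV) : O_GOL := by
  intro p hpf K _ _ ιinf ιp Lg S hcl hnr M _ _ χ₀ hMb
    K₁ _ _ _ ε hcyc a ha hadm hom hsel j hj s hs hns N hNg hNp hgen L _ _ hNL hAdm
    Hf _ _ χ φ ψ hχ hφ hchar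
  have hp := hpf.out
  have hε := hcyc.prim
  obtain ⟨n, hLd⟩ := hAdm.deg
  have hN0 : 0 < finrank K N := by rw [hNp]; exact hp.pos
  have hfN : FiniteDimensional K N := FiniteDimensional.of_finrank_pos hN0
  have hL0 : 0 < finrank K L := by rw [hLd]; exact pow_pos hp.pos n
  have hfL : FiniteDimensional K L := FiniteDimensional.of_finrank_pos hL0
  have hLg : IsGalois K L := inferInstance
  have hnM : Normal K M := inferInstance
  have hnL : Normal K L := inferInstance
  have hnN : Normal K N := inferInstance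
  have hnΩ : Normal K (AlgebraicClosure K) := inferInstance
  have hgΩ : IsGalois K (AlgebraicClosure K) := inferInstance
  have hfKK₁ : FiniteDimensional K K₁ := FiniteDimensional.right ℚ K K₁
  have hgK₁ : IsGalois K K₁ := hcyc.gal
  have hcop : (finrank K K₁).Coprime p := (Pool.Agent.Helper90.LE.l_cyc p K K₁ ε hcyc).2.1
  let jK : K₁ →ₐ[K] AlgebraicClosure K := { j with commutes' := hj }
  obtain ⟨E, hE⟩ : ∃ E : IntermediateField K (AlgebraicClosure K), E = jK.fieldRange := ⟨_, rfl⟩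
  have hjE : ∀ x : K₁, j x ∈ E := fun x => by rw [hE]; exact ⟨x, rfl⟩
  have hEj : ∀ y ∈ E, ∃ x : K₁, j x = y := fun y hy => by rw [hE] at hy; exact hy
  have hrankE : finrank K E = finrank K K₁ := by
    rw [hE]
    exact (LinearEquiv.finrank_eq (AlgEquiv.ofInjectiveField jK).toLinearEquiv).symm
  have hE0 : 0 < finrank K E := by rw [hrankE]; exact finrank_pos
  have hEc : (finrank K E).Coprime p := by rw [hrankE]; exact hcop
  have hfE : FiniteDimensional K E := FiniteDimensional.of_finrank_pos hE0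
  -- the fields
  obtain ⟨F₁, hF₁⟩ : ∃ F : IntermediateField K (AlgebraicClosure K), F = E ⊔ L := ⟨_, rfl⟩
  obtain ⟨H, hH⟩ : ∃ F' : IntermediateField K (AlgebraicClosure K), F' = L ⊔ N := ⟨_, rfl⟩
  obtain ⟨H₁, hH₁⟩ : ∃ F' : IntermediateField K (AlgebraicClosure K), F' = F₁ ⊔ N := ⟨_, rfl⟩
  have hdH : finrank K H = p ^ (n + 1) := by
    rw [hH]; exact finrank_LN hp hLg hNg hLd hNp hNL
  have hdF₁ : finrank K F₁ = finrank K E * p ^ n := by
    rw [hF₁]; exact (finrank_ELN hp hE0 hEc hLg hNg hLd hNp hNL).1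
  have hdH₁ : finrank K H₁ = finrank K E * p ^ (n + 1) := by
    rw [hH₁, hF₁]; exact (finrank_ELN hp hE0 hEc hLg hNg hLd hNp hNL).2
  have hLH : L ≤ H := by rw [hH]; exact le_sup_left
  have hNH : N ≤ H := by rw [hH]; exact le_sup_right
  have hEF₁ : E ≤ F₁ := by rw [hF₁]; exact le_sup_left
  have hLF₁ : L ≤ F₁ := by rw [hF₁]; exact le_sup_right
  have hFH₁ : F₁ ≤ H₁ := by rw [hH₁]; exact le_sup_left
  have hNH₁ : N ≤ H₁ := by rw [hH₁]; exact le_sup_right
  have hHH₁ : H ≤ H₁ := by rw [hH]; exact sup_le (hLF₁.trans hFH₁) hNH₁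
  have hfH : FiniteDimensional K H := FiniteDimensional.of_finrank_pos (by
    rw [hdH]; exact pow_pos hp.pos _)
  have hfF₁ : FiniteDimensional K F₁ := FiniteDimensional.of_finrank_pos (by
    rw [hdF₁]; exact Nat.mul_pos hE0 (pow_pos hp.pos _))
  have hfH₁ : FiniteDimensional K H₁ := FiniteDimensional.of_finrank_pos (by
    rw [hdH₁]; exact Nat.mul_pos hE0 (pow_pos hp.pos _))
  have hnfH : NumberField H := NumberField.of_module_finite K H
  have hnfF₁ : NumberField F₁ := NumberField.of_module_finite K F₁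
  have hnfH₁ : NumberField H₁ := NumberField.of_module_finite K H₁
  have hgH : IsGalois K H := by rw [hH]; infer_instance
  -- the element s
  have hsEN : s ∈ E ⊔ N := mem_of_fixed fun g hg =>
    hgen g (fun y hy => hg y ((le_sup_right : N ≤ E ⊔ N) hy))
      (fun x => hg _ ((le_sup_left : E ≤ E ⊔ N) (hjE x)))
  have hsE : s ∉ E := fun h => hns (hEj s h)
  have hsF₁ : s ∉ F₁ := by
    rw [hF₁]; exact s_not_mem hp hE0 hEc hLg hNg hLd hNp hNL hsEN hsE
  have hsH₁ : s ∈ H₁ := by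
    have h5 : E ⊔ N ≤ H₁ := sup_le (hEF₁.trans hFH₁) hNH₁
    exact h5 hsEN
  -- algebras
  let _ : Algebra L F₁ := (IntermediateField.inclusion hLF₁).toRingHom.toAlgebra
  let _ : Algebra K₁ F₁ := (j.codRestrict F₁ fun x => hEF₁ (hjE x)).toAlgebra
  let _ : Algebra L H := (IntermediateField.inclusion hLH).toRingHom.toAlgebra
  let _ : Algebra F₁ H₁ := (IntermediateField.inclusion hFH₁).toRingHom.toAlgebra
  let _ : Algebra H H₁ := (IntermediateField.inclusion hHH₁).toRingHom.toAlgebra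
  have cLF₁ : ∀ x : L, ((algebraMap L F₁ x : F₁) : AlgebraicClosure K) = x := fun _ => rfl
  have cK₁F₁ : ∀ x : K₁, ((algebraMap K₁ F₁ x : F₁) : AlgebraicClosure K) = j x := fun _ => rfl
  have cLH : ∀ x : L, ((algebraMap L H x : H) : AlgebraicClosure K) = x := fun _ => rfl
  have tKLF₁ : IsScalarTower K L F₁ := IsScalarTower.of_algebraMap_eq fun x => rfl
  have tKK₁F₁ : IsScalarTower K K₁ F₁ := IsScalarTower.of_algebraMap_eq fun x =>
    Subtype.ext (hj x).symm
  have tKLH : IsScalarTower K L H := IsScalarTower.of_algebraMap_eq fun x => rfl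
  have tKF₁H₁ : IsScalarTower K F₁ H₁ := IsScalarTower.of_algebraMap_eq fun x => rfl
  -- the square
  have hq : Sqr p n K K₁ L F₁ :=
    sqr_base hF₁ jK hjE hEj cK₁F₁ cLF₁ hLg hcop hLd
  obtain ⟨q1, q2, q3, q4, -⟩ := Pool.Agent.Helper30.RL.l_sqr p n K K₁ L F₁ hq
  -- degrees
  have hdLH : finrank L H = p := finrank_rel hLd (pow_pos hp.pos _) hdH (by rw [pow_succ])
  have hdF₁H₁ : finrank F₁ H₁ = p := finrank_rel hdF₁ (Nat.mul_pos hE0 (pow_pos hp.pos _)) hdH₁ (by
    rw [pow_succ, mul_assoc])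
  -- automorphisms
  have haK₁ : (a : K₁) ≠ 0 := RingOfIntegers.coe_ne_zero_iff.2 ha
  have hja : j (a : K₁) ≠ 0 := fun h => haK₁ (j.injective (by rw [h, map_zero]))
  obtain ⟨gK, hgF₁, hgs⟩ := exists_gK (K := K) hp (hε.map_of_injective j.injective)
    (hEF₁ (hjE ε)) (hEF₁ (hjE a)) hja hs hsF₁
  have hgL : ∀ x ∈ L, gK x = x := fun x hx => hgF₁ x (hLF₁ hx)
  have hgF₁' : ∀ x ∈ F₁, gK.symm x = x := fun x hx => by
    rw [AlgEquiv.symm_apply_eq]; exact (hgF₁ x hx).symm
  have nH : Normal K H := inferInstance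
  have st1 : ∀ x ∈ H₁, gK x ∈ H₁ := by
    rw [hH₁]; exact map_sup_mem gK fun x hx => by rw [hgF₁ x hx]; exact hx
  have st2 : ∀ x ∈ H₁, gK.symm x ∈ H₁ := by
    rw [hH₁]; exact map_sup_mem gK.symm fun x hx => by rw [hgF₁' x hx]; exact hx
  have st3 : ∀ (g : AlgebraicClosure K ≃ₐ[K] AlgebraicClosure K), ∀ x ∈ H, g x ∈ H :=
    fun g x hx => map_mem_normal g hx
  obtain ⟨γ, hγ⟩ : ∃ γ : H ≃ₐ[L] H, γ = resL cLH gK (st3 gK) (st3 gK.symm) hgL := ⟨_, rfl⟩
  obtain ⟨γ₁, hγ₁⟩ : ∃ γ₁ : H₁ ≃ₐ[F₁] H₁,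
    γ₁ = resL (fun x => rfl) gK st1 st2 hgF₁ := ⟨_, rfl⟩
  have cγ : ∀ x : H, ((γ x : H) : AlgebraicClosure K) = gK x := fun x => by rw [hγ]; rfl
  have cγ₁ : ∀ x : H₁, ((γ₁ x : H₁) : AlgebraicClosure K) = gK x := fun x => by rw [hγ₁]; rfl
  have pγ : ∀ (i : ℕ) (x : H), (((γ ^ i) x : H) : AlgebraicClosure K) = (gK ^ i) x :=
    fun i x => by rw [hγ, resL_pow]
  have hgN1 : ¬ ∀ y ∈ N, gK y = y := by
    intro e1
    have e3 := hgen gK e1 fun x => hgF₁ _ (hEF₁ (hjE x))
    rw [hgs] at e3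
    have hs0 : s ≠ 0 := by
      intro h0
      rw [h0, zero_pow hp.ne_zero] at hs
      exact hja hs.symm
    have e4 : j ε = 1 := by
      have : (j ε - 1) * s = 0 := by rw [sub_mul, e3, one_mul, sub_self]
      rcases mul_eq_zero.1 this with h' | h'
      · exact sub_eq_zero.1 h'
      · exact absurd h' hs0
    have e5 : ε = 1 := j.injective (by rw [e4, map_one])
    exact hε.ne_one hp.one_lt e5
  have hgNp : ∀ y ∈ N, (gK ^ p) y = y := pow_fix (by rw [hNp]) hN0 hNg gK
  have hγp : γ ^ p = 1 := by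
    ext y
    rw [pγ]
    have e1 : ∀ x ∈ H, (gK ^ p) x = (1 : AlgebraicClosure K ≃ₐ[K] AlgebraicClosure K) x := by
      rw [hH]
      exact eq_on_sup (fun x hx => fix_pow (hgL x hx) p) hgNp
    exact e1 y y.2
  have hγ1 : γ ≠ 1 := by
    intro h
    apply hgN1
    intro y hy
    have e2 := AlgEquiv.congr_fun h ⟨y, hNH hy⟩
    have e3 := cγ ⟨y, hNH hy⟩
    rw [e2] at e3
    exact e3.symm
  have hγo : orderOf γ = p := orderOf_eq_prime hγp hγ1
  -- the data
  obtain ⟨a', ha'⟩ : ∃ a' : 𝓞 F₁, (a' : F₁) = algebraMap K₁ F₁ (a : K₁) ∧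
      (p : 𝓞 F₁) ^ 3 ∣ a' - 1 := by
    refine ⟨RingOfIntegers.mapRingHom (algebraMap K₁ F₁) a, rfl, ?_⟩
    have e1 := map_dvd (RingOfIntegers.mapRingHom (algebraMap K₁ F₁)) hadm
    rwa [map_pow, map_natCast, map_sub, map_one] at e1
  have ha'0 : a' ≠ 0 := by
    intro h
    have e1 := ha'.1
    rw [h] at e1
    have e2 : algebraMap K₁ F₁ (a : K₁) = 0 := by
      rw [← e1]
      exact map_zero (algebraMap (𝓞 F₁) F₁)
    exact haK₁ ((algebraMap K₁ F₁).injective (by rw [e2, map_zero]))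
  have hclL : PlaceClosed (above (TSet ιinf ιp S) : Set (L →+* ℂ_[p])) := by
    intro σ τ hστ
    exact hcl _ _ fun x => hστ (algebraMap K L x)
  have hHD : HD p L H F₁ H₁ γ γ₁ (algebraMap K₁ F₁ ε) a' ⟨s, hsH₁⟩ :=
    { degH := hdLH
      degH₁ := hdF₁H₁
      compat := fun x => rfl
      cop := by rw [q2]; exact hcop
      gal := q4
      prim := hε.map_of_injective (algebraMap K₁ F₁).injective
      ne := ha'0
      adm := ha'.2
      pow := by
        apply Subtype.ext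
        have e1 := ha'.1
        have e2 : ((a' : F₁) : AlgebraicClosure K) = j (a : K₁) := by rw [e1]; rfl
        exact hs.trans e2.symm
      γs := by
        apply Subtype.ext
        rw [cγ₁]
        exact hgs
      ext := fun y => by
        apply Subtype.ext
        rw [cγ₁]
        exact (cγ y).symm
      γo := hγo }
  -- the restriction of an automorphism of `F₁/L` to `K₁`
  have hres : ∀ g : F₁ ≃ₐ[L] F₁, ∃ h : K₁ ≃ₐ[K] K₁, ∀ x : K₁,
      g (algebraMap K₁ F₁ x) = algebraMap K₁ F₁ (h x) := by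
    intro g
    refine ⟨(g.restrictScalars K).restrictNormal K₁, fun x => ?_⟩
    exact (AlgEquiv.restrictNormal_commutes (g.restrictScalars K) K₁ x).symm
  have hcycL : Cyc p L F₁ (algebraMap K₁ F₁ ε) :=
    { prim := hε.map_of_injective (algebraMap K₁ F₁).injective
      gal := q4
      gen := by
        intro g hg
        obtain ⟨h, hh⟩ := hres g
        have e1 : h ε = ε := (algebraMap K₁ F₁).injective ((hh ε).symm.trans hg)
        have e2 := hcyc.gen h e1
        have e3 : g.restrictScalars K = 1 := hq.gen _ (fun x => by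
          have e4 := hh x
          rw [e2] at e4
          exact e4) (fun y => g.commutes y)
        ext x
        have e5 := AlgEquiv.congr_fun e3 x
        exact congrArg Subtype.val e5 }
  have homL : OmType p L (algebraMap K₁ F₁ ε) (a' : F₁) := by
    intro g
    obtain ⟨h, hh⟩ := hres g
    obtain ⟨m, c, e1, e2⟩ := hom h
    refine ⟨m, algebraMap K₁ F₁ c, ?_, ?_⟩
    · rw [hh, e1, map_pow]
    · rw [ha'.1, hh, e2, map_mul, map_pow, map_pow]
  have hne : Nonempty (AlgebraicClosure ℚ →+* ℂ_[p]) :=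
    Pool.Agent.Helper50.RS.nonempty_hom ℚ ℂ_[p]
  -- the conditions
  have hfree : ∀ v : HeightOneSpectrum (𝓞 K), ∃ w : HeightOneSpectrum (𝓞 M), Above w v ∧
      FreeP K w := by
    intro v
    obtain ⟨w, hw⟩ := Pool.Agent.Helper42.RS.exists_above (M := K) (H := M) v
    exact ⟨w, hw.over.symm, fun g _ => bot_aut hMb g⟩
  have hCL : CondLO p K L (TSet ιinf ιp S) (a : K₁) :=
    { split := fun v hv V hV => hAdm.split v ⟨hfree v, hv⟩ V hV
      unr := fun v h5 h6 V hV => hAdm.unr v (fun ⟨_, Q, hQ, hQ2⟩ => hQ2 (h5 Q hQ)) h6 (hfree v)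
        V hV }
  have hT : ∀ σ ∈ TSet ιinf ιp S, CondO p K L (AlgebraicClosure K) σ := by
    intro σ hσ
    rcases hAdm.sig σ hσ with h5 | h5
    · exact Or.inl h5
    · refine Or.inr fun τ hτ => ?_
      obtain ⟨g, i, g1, g2, g3⟩ := h5 τ hτ
      refine ⟨g, i, g1, g2, ?_⟩
      rw [bot_aut hMb (AlgEquiv.restrictNormalHom M g), map_one, Units.val_one] at g3
      exact g3
  have hIAC : IsAlgClosure L (AlgebraicClosure K) := by
    have e1 : Algebra.IsAlgebraic L (AlgebraicClosure K) :=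
      Algebra.IsAlgebraic.tower_top (K := K) L
    exact ⟨inferInstance, e1⟩
  have hSel : ∀ x : Lˣ, SelO Lg (above (TSet ιinf ιp S) : Set (L →+* ℂ_[p]))
      (algebraMap K₁ F₁ (a : K₁)) x → Pw p x :=
    h1 p ℂ_[p] hne Lg n K K₁ L F₁ (AlgebraicClosure K) ε hcyc hnr hq (TSet ιinf ιp S) hT
      (a : K₁) haK₁ hom hCL hsel
  have hSel' : ∀ x : Lˣ, SelO Lg (above (TSet ιinf ιp S) : Set (L →+* ℂ_[p]))
      (a' : F₁) x → Pw p x := by
    rw [ha'.1]
    exact hSel
  -- the characters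
  have hMr1 : ∀ g : AlgebraicClosure K ≃ₐ[K] AlgebraicClosure K,
      χ₀ (AlgEquiv.restrictNormalHom M g) = 1 := fun g => by
    rw [bot_aut hMb (AlgEquiv.restrictNormalHom M g), map_one]
  have hLr1 : ∀ g : AlgebraicClosure K ≃ₐ[K] AlgebraicClosure K, (∀ x ∈ L, g x = x) →
      ψ (AlgEquiv.restrictNormalHom L g) = 1 := fun g hg => by
    rw [res_one_iff.2 hg, map_one]
  have hNr1 : ∀ g : AlgebraicClosure K ≃ₐ[K] AlgebraicClosure K, (∀ x ∈ N, g x = x) →
      φ (AlgEquiv.restrictNormalHom N g) = 1 := fun g hg => by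
    rw [res_one_iff.2 hg, map_one]
  have hHf : Hf ≤ H := by
    intro y hy
    apply mem_of_fixed
    intro g hg
    have e1 : χ (AlgEquiv.restrictNormalHom Hf g) = 1 := by
      rw [hchar g, hMr1 g, hNr1 g fun x hx => hg x (hNH hx),
        hLr1 g fun x hx => hg x (hLH hx), one_mul, one_mul]
    have e2 : AlgEquiv.restrictNormalHom Hf g = 1 := hχ (by rw [e1, map_one])
    exact res_one_iff.1 e2 y hy
  have hχγ : χ (AlgEquiv.restrictNormalHom Hf gK) = φ (AlgEquiv.restrictNormalHom N gK) := by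
    rw [hchar gK, hMr1 gK, hLr1 gK hgL, one_mul, mul_one]
  have hφp : IsPrimitiveRoot ((φ (AlgEquiv.restrictNormalHom N gK) : ℂ_[p]ˣ) : ℂ_[p]) p := by
    have e0 : orderOf (AlgEquiv.restrictNormalHom N gK) = p := by
      apply orderOf_eq_prime
      · rw [← map_pow]
        exact res_one_iff.2 hgNp
      · intro h
        exact hgN1 (res_one_iff.1 h)
    have e1 : orderOf (φ (AlgEquiv.restrictNormalHom N gK)) = p := by
      rw [orderOf_injective φ hφ, e0]
    have e2 : orderOf ((φ (AlgEquiv.restrictNormalHom N gK) : ℂ_[p]ˣ) : ℂ_[p]) = p := by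
      rw [orderOf_units, e1]
    have e3 := IsPrimitiveRoot.orderOf ((φ (AlgEquiv.restrictNormalHom N gK) : ℂ_[p]ˣ) : ℂ_[p])
    rwa [e2] at e3
  -- the conclusion
  obtain ⟨i, hi⟩ : ∃ i : Hf →+* H, ∀ x : Hf, ((i x : H) : AlgebraicClosure K) = x :=
    ⟨(IntermediateField.inclusion hHf).toRingHom, fun x => rfl⟩
  have heq : ∀ (g : AlgebraicClosure K ≃ₐ[K] AlgebraicClosure K) (g' : H ≃ₐ[L] H),
      (∀ x : H, ((g' x : H) : AlgebraicClosure K) = g x) → ∀ x : Hf,
      g' (i x) = i (AlgEquiv.restrictNormalHom Hf g x) := by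
    intro g g' hg x
    apply Subtype.ext
    rw [hg, hi, hi, AlgEquiv.restrictNormalHom_apply]
  have hnfHf : NumberField Hf := NumberField.of_module_finite K Hf
  intro x hx
  apply bc_inj (ups i) (ups_inj i)
  rw [map_zero]
  refine d_p1 p ℂ_[p] hne Lg L H F₁ H₁ γ γ₁ (algebraMap K₁ F₁ ε) a' ⟨s, hsH₁⟩ hHD hcycL homL
    (above (TSet ιinf ιp S) : Set (L →+* ℂ_[p])) hclL hSel' _ hφp _ ?_ ?_
  · rw [ups_equiv i (AlgEquiv.restrictNormalHom Hf gK) γ (heq gK γ cγ),
      Pool.Agent.Helper50.RS.eig_eChi, map_smul, hχγ]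
  · intro τ' hτ'
    rw [log_ups]
    apply hx
    obtain ⟨σ, hσ⟩ := exists_lift_embedding ιp (τ'.comp i)
    obtain ⟨σ₀, g1, g2⟩ := hτ'
    refine ⟨σ, ?_, ?_⟩
    · have g3 : σ.comp (algebraMap K Hf) = σ₀ := by
        apply Pool.Agent.Helper50.RS.comp_inj ιp
        show ιp.comp (σ.comp (algebraMap K _)) = ιp.comp σ₀
        rw [← g2, ← RingHom.comp_assoc, hσ]
        ext c
        exact congrArg τ' (Subtype.ext (hi _))
      rw [g3]
      exact g1
    · rw [hσ]

end Pool.Agent.Helper94.PPO
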